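import Mathlib

/-!
Trees of iterated preimages for `x ↦ x ^ 2 + a` on `ZMod p`, for a general modulus.
-/

set_option autoImplicit false

namespace Pool.Agent.Lib_helper76.QGGen

variable (p a : ℕ)

/-- the map `x ↦ x ^ 2 + a`. -/
def f (x : ZMod p) : ZMod p := x ^ 2 + (a : ZMod p)

/-- iterated preimages of `y`. -/
def B (y : ZMod p) : Set (ZMod p) := {x | ∃ k : ℕ, (f p a)^[k] x = y}

noncomputable def W (y : ZMod p) : ℕ := (B p a y).ncard

/-- `y` never returns to itself. -/
def NP (y : ZMod p) : Prop := ∀ n : ℕ, 0 < n → (f p a)^[n] y ≠ y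

variable {p a}

lemma np_of_map {y z : ZMod p} (h : NP p a y) (hz : f p a z = y) : NP p a z := by
  intro n hn hn'
  apply h n hn
  rw [← hz, ← Function.iterate_succ_apply, Function.iterate_succ_apply', hn']

lemma mem_self (y : ZMod p) : y ∈ B p a y := ⟨0, rfl⟩

lemma B_sub {y z : ZMod p} (hz : f p a z = y) : B p a z ⊆ B p a y := by
  rintro x ⟨k, hk⟩
  exact ⟨k + 1, by rw [Function.iterate_succ_apply', hk, hz]⟩

lemma not_mem_B {y z : ZMod p} (h : NP p a y) (hz : f p a z = y) : y ∉ B p a z := by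
  rintro ⟨k, hk⟩
  exact h (k + 1) (Nat.succ_pos k) (by rw [Function.iterate_succ_apply', hk, hz])

lemma B_disj {y z w : ZMod p} (h : NP p a y) (hz : f p a z = y) (hw : f p a w = y)
    (hne : z ≠ w) : Disjoint (B p a z) (B p a w) := by
  rw [Set.disjoint_left]
  have key : ∀ (a' b : ZMod p) (i j : ℕ) (x : ZMod p), f p a a' = y → f p a b = y → i < j →
      (f p a)^[i] x = a' → (f p a)^[j] x = b → False := by
    intro a' b i j x ha hb hij hi hj
    obtain ⟨d, rfl⟩ := Nat.exists_eq_add_of_lt hij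
    have h1 : (f p a)^[d + 1] a' = b := by
      rw [← hi, ← Function.iterate_add_apply, ← hj]
      congr 1
      ring
    apply h (d + 1) (Nat.succ_pos d)
    calc (f p a)^[d + 1] y = (f p a)^[d + 1] (f p a a') := by rw [ha]
      _ = f p a ((f p a)^[d + 1] a') := by
        rw [← Function.iterate_succ_apply, Function.iterate_succ_apply']
      _ = y := by rw [h1, hb]
  rintro x ⟨i, hi⟩ ⟨j, hj⟩
  rcases lt_trichotomy i j with hij | hij | hij
  · exact key z w i j x hz hw hij hi hj
  · subst hij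
    exact hne (hi.symm.trans hj)
  · exact key w z j i x hw hz hij hj hi

variable [NeZero p]

lemma W_one (y : ZMod p) : 1 ≤ W p a y := by
  have : 0 < (B p a y).ncard := (Set.ncard_pos (Set.toFinite _)).2 ⟨y, mem_self y⟩
  exact this

lemma W_single {y z : ZMod p} (h : NP p a y) (hz : f p a z = y) : W p a z + 1 ≤ W p a y := by
  have h1 : (insert y (B p a z)).ncard = (B p a z).ncard + 1 :=
    Set.ncard_insert_of_notMem (not_mem_B h hz) (Set.toFinite _)
  have h2 : (insert y (B p a z)) ⊆ B p a y := Set.insert_subset (mem_self y) (B_sub hz)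
  have h3 := Set.ncard_le_ncard h2 (Set.toFinite _)
  unfold W
  omega

lemma W_pair {y z w : ZMod p} (h : NP p a y) (hz : f p a z = y) (hw : f p a w = y)
    (hne : z ≠ w) : W p a z + W p a w + 1 ≤ W p a y := by
  have h0 : y ∉ B p a z ∪ B p a w := by
    rintro (h1 | h1)
    · exact not_mem_B h hz h1
    · exact not_mem_B h hw h1
  have h1 : (insert y (B p a z ∪ B p a w)).ncard = (B p a z ∪ B p a w).ncard + 1 :=
    Set.ncard_insert_of_notMem h0 (Set.toFinite _)
  have h4 : (B p a z ∪ B p a w).ncard = (B p a z).ncard + (B p a w).ncard :=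
    Set.ncard_union_eq (B_disj h hz hw hne) (Set.toFinite _) (Set.toFinite _)
  have h2 : (insert y (B p a z ∪ B p a w)) ⊆ B p a y :=
    Set.insert_subset (mem_self y) (Set.union_subset (B_sub hz) (B_sub hw))
  have h3 := Set.ncard_le_ncard h2 (Set.toFinite _)
  unfold W
  omega

variable (p a)

/-- all stack entries are non periodic. -/
def Good (L : List ℕ) : Prop := ∀ n ∈ L, NP p a (n : ZMod p)

noncomputable def total (L : List ℕ) : ℕ := (L.map (fun n : ℕ => W p a (n : ZMod p))).sum

/-- the specification of a transition of the stack machine using `N` steps. -/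
def Spec (N : ℕ) (L L' : List ℕ) : Prop :=
  Good p a L → Good p a L' ∧ total p a L' + N ≤ total p a L

variable {p a}

omit [NeZero p] in
lemma total_cons (b : ℕ) (L : List ℕ) :
    total p a (b :: L) = W p a (b : ZMod p) + total p a L := by
  simp [total]

omit [NeZero p] in
lemma good_tail {b : ℕ} {L : List ℕ} (h : Good p a (b :: L)) : Good p a L :=
  fun n hn => h n (List.mem_cons_of_mem _ hn)

omit [NeZero p] in
lemma good_head {b : ℕ} {L : List ℕ} (h : Good p a (b :: L)) : NP p a (b : ZMod p) :=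
  h b List.mem_cons_self

omit [NeZero p] in
lemma good_cons {b : ℕ} {L : List ℕ} (h : NP p a (b : ZMod p)) (hL : Good p a L) :
    Good p a (b :: L) := by
  intro n hn
  rcases List.mem_cons.1 hn with rfl | hn
  · exact h
  · exact hL n hn

omit [NeZero p] in
lemma Spec.trans {M N : ℕ} {L L' L'' : List ℕ} (h1 : Spec p a M L L')
    (h2 : Spec p a N L' L'') : Spec p a (M + N) L L'' := by
  intro hL
  obtain ⟨hg, ht⟩ := h1 hL
  obtain ⟨hg', ht'⟩ := h2 hg
  exact ⟨hg', by omega⟩

lemma spec_drop (y : ℕ) (T : List ℕ) : Spec p a 1 (y :: T) T := by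
  intro hL
  refine ⟨good_tail hL, ?_⟩
  have := W_one (p := p) (a := a) (y : ZMod p)
  rw [total_cons]
  omega

omit [NeZero p] in
lemma d_eq {y c d : ℕ} (hc : c + a = p) (hd : (y + c) % p = d) :
    ((d : ℕ) : ZMod p) + (a : ZMod p) = (y : ZMod p) := by
  have h1 : ((d : ℕ) : ZMod p) = ((y + c : ℕ) : ZMod p) := by
    rw [← hd]; exact ZMod.natCast_mod _ _
  have h2 : ((c + a : ℕ) : ZMod p) = 0 := by rw [hc]; exact ZMod.natCast_self p
  rw [Nat.cast_add] at h1 h2
  rw [h1, add_assoc, h2, add_zero]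

lemma spec_zero {c y : ℕ} {T : List ℕ} (hc : c + a = p) (hd : (y + c) % p = 0) :
    Spec p a 1 (y :: T) (0 :: T) := by
  intro hL
  have hd' := d_eq hc hd
  have hf : f p a ((0 : ℕ) : ZMod p) = (y : ZMod p) := by
    unfold f
    rw [← hd', Nat.cast_zero]
    ring
  have hy := good_head hL
  refine ⟨good_cons (np_of_map hy hf) (good_tail hL), ?_⟩
  rw [total_cons, total_cons]
  have := W_single hy hf
  omega

omit [NeZero p] in
lemma neg_fact {q s : ℕ} (hq : q + s = p) : ((q : ℕ) : ZMod p) = - ((s : ℕ) : ZMod p) := by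
  have h2 : ((q + s : ℕ) : ZMod p) = 0 := by rw [hq]; exact ZMod.natCast_self p
  rw [Nat.cast_add] at h2
  exact eq_neg_of_add_eq_zero_left h2

omit [NeZero p] in
lemma ne_fact {s : ℕ} (hodd : p % 2 = 1) (h0 : 0 < s) (hlt : s < p) :
    ((s : ℕ) : ZMod p) ≠ - ((s : ℕ) : ZMod p) := by
  intro h3
  have h4 : ((2 * s : ℕ) : ZMod p) = 0 := by
    rw [Nat.cast_mul, Nat.cast_two, two_mul]
    nth_rewrite 1 [h3]
    exact neg_add_cancel _
  rw [ZMod.natCast_eq_zero_iff] at h4
  obtain ⟨k, hk⟩ := h4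
  have h5 : k < 2 := by
    by_contra hcon
    have : p * 2 ≤ p * k := Nat.mul_le_mul_left p (not_lt.1 hcon)
    omega
  interval_cases k <;> omega

lemma spec_push {c y m s' q : ℕ} {T : List ℕ} (hc : c + a = p) (hodd : p % 2 = 1)
    (hd : (y + c) % p = m + 1) (hb : ((s' + 1) * (s' + 1)) % p = m + 1) (hlt : s' + 1 < p)
    (hq : q + (s' + 1) = p) : Spec p a 1 (y :: T) ((s' + 1) :: q :: T) := by
  intro hL
  have hd' := d_eq hc hd
  have hneg := neg_fact hq
  have hsq : ((s' + 1 : ℕ) : ZMod p) * ((s' + 1 : ℕ) : ZMod p) = ((m + 1 : ℕ) : ZMod p) := by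
    rw [← Nat.cast_mul, ← hb]
    exact (ZMod.natCast_mod _ _).symm
  have hf1 : f p a ((s' + 1 : ℕ) : ZMod p) = (y : ZMod p) := by
    unfold f
    rw [sq, hsq]
    exact hd'
  have hf2 : f p a ((q : ℕ) : ZMod p) = (y : ZMod p) := by
    rw [hneg]
    unfold f
    rw [neg_sq, sq, hsq]
    exact hd'
  have hne : ((s' + 1 : ℕ) : ZMod p) ≠ ((q : ℕ) : ZMod p) := by
    rw [hneg]
    exact ne_fact hodd (Nat.succ_pos s') hlt
  have hy := good_head hL
  refine ⟨good_cons (np_of_map hy hf1) (good_cons (np_of_map hy hf2) (good_tail hL)), ?_⟩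
  rw [total_cons, total_cons, total_cons]
  have := W_pair hy hf1 hf2 hne
  omega

/-- If a nonperiodic `y` that maps to a fixed point `r` has `p - 1` iterated preimages then
every point reaches `r`. -/
lemma reaches_of_count {y r : ZMod p} (hr : f p a r = r) (hy : f p a y = r)
    (hne : y ≠ r) (hW : p - 1 ≤ W p a y) (x : ZMod p) : ∃ k : ℕ, (f p a)^[k] x = r := by
  have iter_root : ∀ k : ℕ, (f p a)^[k] r = r := fun k => Function.iterate_fixed hr k
  by_cases hx : x = r
  · exact ⟨0, hx⟩
  have hmem : x ∈ B p a y := by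
    by_contra hcon
    have hrB : r ∉ B p a y := by
      rintro ⟨k, hk⟩
      rw [iter_root] at hk
      exact hne hk.symm
    have hsub : B p a y ⊆ ({x, r} : Set (ZMod p))ᶜ := by
      intro z hz
      simp only [Set.mem_compl_iff, Set.mem_insert_iff, Set.mem_singleton_iff, not_or]
      constructor
      · rintro rfl; exact hcon hz
      · rintro rfl; exact hrB hz
    have h1 := Set.ncard_le_ncard hsub (Set.toFinite _)
    have h2 : ({x, r} : Set (ZMod p)).ncard = 2 := Set.ncard_pair hx
    have h3 := Set.ncard_add_ncard_compl ({x, r} : Set (ZMod p))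
    have h4 : Nat.card (ZMod p) = p := Nat.card_zmod p
    unfold W at hW
    omega
  obtain ⟨k, hk⟩ := hmem
  exact ⟨k + 1, by rw [Function.iterate_succ_apply', hk, hy]⟩

omit [NeZero p] in
lemma np_of_fixed {y r : ZMod p} (hr : f p a r = r) (hy : f p a y = r)
    (hne : y ≠ r) : NP p a y := by
  intro n hn h
  obtain ⟨m, rfl⟩ := Nat.exists_eq_succ_of_ne_zero hn.ne'
  rw [Function.iterate_succ_apply, hy, Function.iterate_fixed hr m] at h
  exact hne h.symm

end Pool.Agent.Lib_helper76.QGGen
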