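import Mathlib
import Pool.Agent.Lib_helper76.QGComp.C17
import Pool.Agent.Lib_helper76.QGGen

set_option autoImplicit false

namespace Pool.Agent.Lib_helper76.QG

open QGGen

instance : NeZero (1113643 : ℕ) := ⟨by norm_num⟩

abbrev Sp (N : ℕ) (L L' : List ℕ) : Prop := Spec 1113643 278411 N L L'

lemma step_spec (L L' : List ℕ) (h : step L = some L') : Sp 1 L L' := by
  cases L with
  | nil => exact absurd (show (none : Option (List ℕ)) = some L' from h) (by simp)
  | cons y T =>
    have hrec : step (y :: T) = stepD T (Nat.mod (Nat.add y 835232) 1113643) := rfl
    rw [hrec] at h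
    clear hrec
    generalize hd : Nat.mod (Nat.add y 835232) 1113643 = d at h
    have hd' : (y + 835232) % 1113643 = d := hd
    clear hd
    cases d with
    | zero =>
      replace h := Option.some.inj h
      subst h
      exact spec_zero (c := 835232) (by norm_num) hd'
    | succ m =>
      have hlt : sqr (Nat.succ m) < 1113643 := Nat.mod_lt _ (by norm_num)
      have h1 : stepS T m (sqr (Nat.succ m)) = some L' := h
      clear h
      generalize sqr (Nat.succ m) = s at h1 hlt
      cases s with
      | zero =>
        replace h1 := Option.some.inj h1
        subst h1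
        exact spec_drop y _
      | succ s' =>
        have hb' := fun hb : Nat.beq (Nat.mod (Nat.mul (Nat.succ s') (Nat.succ s')) 1113643)
          (Nat.succ m) = true => Nat.eq_of_beq_eq_true hb
        have h : @Bool.rec (fun _ => Option (List Nat)) (some T)
            (some (List.cons (Nat.succ s') (List.cons (Nat.sub 1113642 s') T)))
            (Nat.beq (Nat.mod (Nat.mul (Nat.succ s') (Nat.succ s')) 1113643)
              (Nat.succ m)) = some L' := h1
        clear h1
        generalize Nat.beq (Nat.mod (Nat.mul (Nat.succ s') (Nat.succ s')) 1113643)
          (Nat.succ m) = b at h hb'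
        cases b with
        | false =>
          replace h := Option.some.inj h
          subst h
          exact spec_drop y _
        | true =>
          replace h := Option.some.inj h
          have hb : ((s' + 1) * (s' + 1)) % 1113643 = m + 1 := hb' rfl
          clear hb'
          have hq : Nat.sub 1113642 s' + (s' + 1) = 1113643 := by
            have : Nat.sub 1113642 s' = 1113642 - s' := rfl
            rw [this]
            omega
          generalize Nat.sub 1113642 s' = q at h hq
          subst h
          exact spec_push (c := 835232) (by norm_num) (by norm_num) hd' hb hlt hq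

lemma run_spec (k : ℕ) : ∀ L L' : List ℕ, run k L = some L' → Sp (2 ^ k) L L' := by
  induction k with
  | zero => intro L L' h; exact step_spec L L' h
  | succ k ih =>
    intro L L' h
    have hrec : run (k + 1) L = @Option.rec (List Nat) (fun _ => Option (List Nat)) none
        (fun L' => run k L') (run k L) := rfl
    rw [hrec] at h
    generalize ho : run k L = o at h
    cases o with
    | none => exact absurd (show (none : Option (List ℕ)) = some L' from h) (by simp)
    | some L1 =>
      have h' : run k L1 = some L' := h
      have := (ih L L1 ho).trans (ih L1 L' h')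
      rwa [← two_mul, ← pow_succ'] at this

lemma runs_spec (ks : List ℕ) : ∀ L L' : List ℕ, runs ks L = some L' →
    Sp (ks.map (fun k => 2 ^ k)).sum L L' := by
  induction ks with
  | nil =>
    intro L L' h
    have : some L = some L' := h
    simp only [Option.some.injEq] at this
    subst this
    intro hL
    exact ⟨hL, by simp⟩
  | cons k ks ih =>
    intro L L' h
    have hrec : runs (k :: ks) L = @Option.rec (List Nat) (fun _ => Option (List Nat)) none
        (fun L' => runs ks L') (run k L) := rfl
    rw [hrec] at h
    generalize ho : run k L = o at h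
    cases o with
    | none => exact absurd (show (none : Option (List ℕ)) = some L' from h) (by simp)
    | some L1 =>
      have h' : runs ks L1 = some L' := h
      have := (run_spec k L L1 ho).trans (ih L1 L' h')
      simpa using this

lemma eqL_spec (l : List ℕ) : ∀ l2 : List ℕ, eqL l l2 = true → l = l2 := by
  induction l with
  | nil =>
    intro l2 h
    cases l2 with
    | nil => rfl
    | cons b t => exact absurd (show false = true from h) (by simp)
  | cons a l ih =>
    intro l2 h
    cases l2 with
    | nil => exact absurd (show false = true from h) (by simp)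
    | cons b t =>
      have hrec : eqL (a :: l) (b :: t) = @Bool.rec (fun _ => Bool) false (eqL l t)
        (Nat.beq a b) := rfl
      rw [hrec] at h
      generalize hb : Nat.beq a b = c at h
      cases c with
      | false => exact absurd (show false = true from h) (by simp)
      | true =>
        have h' : eqL l t = true := h
        rw [ih t h', Nat.eq_of_beq_eq_true hb]

lemma eqO_spec (o : Option (List ℕ)) (l : List ℕ) (h : eqO o l = true) : o = some l := by
  cases o with
  | none => exact absurd (show false = true from h) (by simp)
  | some l1 => exact congrArg some (eqL_spec l1 l h)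

lemma chunk {ks : List ℕ} {L L' : List ℕ} (h : eqO (runs ks L) L' = true) :
    Sp (ks.map (fun k => 2 ^ k)).sum L L' := runs_spec ks L L' (eqO_spec _ _ h)

lemma all_spec : Sp 1113642 L0 L17 := by
  have h := (((((((((((((((((chunk c1).trans (chunk c2)).trans (chunk c3)).trans
    (chunk c4)).trans (chunk c5)).trans (chunk c6)).trans (chunk c7)).trans (chunk c8)).trans
    (chunk c9)).trans (chunk c10)).trans (chunk c11)).trans (chunk c12)).trans
    (chunk c13)).trans (chunk c14)).trans (chunk c15)).trans (chunk c16)).trans (chunk c17))
  have hn : ((List.map (fun k => 2 ^ k) [16]).sum + (List.map (fun k => 2 ^ k) [16]).sum +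
    (List.map (fun k => 2 ^ k) [16]).sum + (List.map (fun k => 2 ^ k) [16]).sum +
    (List.map (fun k => 2 ^ k) [16]).sum + (List.map (fun k => 2 ^ k) [16]).sum +
    (List.map (fun k => 2 ^ k) [16]).sum + (List.map (fun k => 2 ^ k) [16]).sum +
    (List.map (fun k => 2 ^ k) [16]).sum + (List.map (fun k => 2 ^ k) [16]).sum +
    (List.map (fun k => 2 ^ k) [16]).sum + (List.map (fun k => 2 ^ k) [16]).sum +
    (List.map (fun k => 2 ^ k) [16]).sum + (List.map (fun k => 2 ^ k) [16]).sum +
    (List.map (fun k => 2 ^ k) [16]).sum + (List.map (fun k => 2 ^ k) [16]).sum +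
    (List.map (fun k => 2 ^ k) [15, 14, 13, 12, 11, 10, 9, 5, 3, 1]).sum) = 1113642 := by
    simp
  rwa [hn] at h

lemma f_root : f 1113643 278411 ((556822 : ℕ) : ZMod 1113643) = ((556822 : ℕ) : ZMod 1113643) := by
  unfold f
  rw [← Nat.cast_pow, ← Nat.cast_add, ZMod.natCast_eq_natCast_iff']
  norm_num

lemma f_neg : f 1113643 278411 ((556821 : ℕ) : ZMod 1113643) = ((556822 : ℕ) : ZMod 1113643) := by
  unfold f
  rw [← Nat.cast_pow, ← Nat.cast_add, ZMod.natCast_eq_natCast_iff']
  norm_num

lemma ne_root : ((556821 : ℕ) : ZMod 1113643) ≠ ((556822 : ℕ) : ZMod 1113643) := by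
  rw [Ne, ZMod.natCast_eq_natCast_iff']
  norm_num

/-- every point reaches the fixed point `1/2 = 556822`. -/
theorem reaches (x : ZMod 1113643) :
    ∃ k : ℕ, (f 1113643 278411)^[k] x = ((556822 : ℕ) : ZMod 1113643) := by
  refine reaches_of_count f_root f_neg ne_root ?_ x
  have hg : Good 1113643 278411 L0 := by
    intro n hn
    simp only [L0, List.mem_singleton] at hn
    subst hn
    exact np_of_fixed f_root f_neg ne_root
  have h := (all_spec hg).2
  have h0 : total 1113643 278411 L0 = W 1113643 278411 ((556821 : ℕ) : ZMod 1113643) := by
    simp only [total, L0, List.map_cons, List.map_nil, List.sum_cons, List.sum_nil, add_zero]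
  rw [h0] at h
  omega

end Pool.Agent.Lib_helper76.QG
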